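import Pool.Agent.helper45.PV.SpecG

/-! # pvg:BNT: naturality of the Bott map for a character -/

set_option autoImplicit false

open scoped Matrix Topology

namespace Pool.Agent.PV

open Pool.Agent.CZ

theorem BNT_mul {R ι : Type} [Ring R] [Fintype ι] (w : R) (hw : ∀ f : R, f * w = w * f)
    (A B : Matrix ι ι R) : A * (w • B) = w • (A * B) := by
  ext i k
  rw [Matrix.mul_apply, Matrix.smul_apply, Matrix.mul_apply, smul_eq_mul, Finset.mul_sum]
  apply Finset.sum_congr rfl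
  intro j _
  rw [Matrix.smul_apply, smul_eq_mul, ← mul_assoc, hw, mul_assoc]

theorem BNT_inv {R ι : Type} [Ring R] [Fintype ι] [DecidableEq ι] (z w : R) (hw : ∀ f : R, f * w = w * f)
    (hzw : z * w = 1) (E : Matrix ι ι R) (hE : E * E = E) :
    (z • E + (1 - E)) * (w • E + (1 - E)) = 1 := by
  have h1 : E * (1 - E) = 0 := by rw [mul_sub, mul_one, hE, sub_self]
  have h2 : (1 - E) * E = 0 := by rw [sub_mul, one_mul, hE, sub_self]
  have h3 : (1 - E) * (1 - E) = 1 - E := by rw [mul_sub, mul_one, h2, sub_zero]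
  rw [add_mul, mul_add, mul_add, BNT_mul w hw, BNT_mul w hw, Matrix.smul_mul, Matrix.smul_mul, hE, h1, h2, h3,
    smul_zero, smul_zero, smul_smul, add_zero, zero_add]
  have h4 : w * z = z * w := (hw z).symm
  rw [h4, hzw, one_smul, add_sub_cancel]

theorem BNT_zl (D : Type) [NormedRing D] [NormedAlgebra ℂ D] (f : C(UnitAddCircle, D)) :
    f * zl D = zl D * f := by
  ext t
  change f t * ((fourier 1 t : ℂ) • (1 : D)) = ((fourier 1 t : ℂ) • (1 : D)) * f t
  rw [mul_smul_comm, mul_one, smul_mul_assoc, one_mul]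

theorem BNT_zi (D : Type) [NormedRing D] [NormedAlgebra ℂ D] (f : C(UnitAddCircle, D)) :
    f * zi D = zi D * f := by
  ext t
  change f t * ((fourier (-1) t : ℂ) • (1 : D)) = ((fourier (-1) t : ℂ) • (1 : D)) * f t
  rw [mul_smul_comm, mul_one, smul_mul_assoc, one_mul]

theorem BNT_gen (D : Type) [NormedRing D] [NormedAlgebra ℂ D] (χ : D →ₐ[ℂ] ℂ) (hχ : Continuous χ)
    (hc : Continuous (cmpC UnitAddCircle χ hχ).toRingHom) (be : K0 D →+ K1 C(UnitAddCircle, D))
    (be' : K0 ℂ →+ K1 C(UnitAddCircle, ℂ)) (hbe : IsBeG D be) (hbe' : IsBeG ℂ be') (ι : Type) [Fintype ι]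
    [DecidableEq ι] (e : Matrix ι ι D) (he : e * e = e) :
    k1map (cmpC UnitAddCircle χ hχ).toRingHom hc (be (k0 e he)) = be' (k0map χ.toRingHom (k0 e he)) := by
  have hE : e.map (cl D) * e.map (cl D) = e.map (cl D) := by
    have h := congrArg (fun M => M.map (cl D)) he
    simp only [Matrix.map_mul] at h
    exact h
  have u1 : zl D * zi D = 1 := (zU D).val_inv
  have u2 : zi D * zl D = 1 := (zU D).inv_val
  obtain ⟨g, hg⟩ : ∃ g : (Matrix ι ι C(UnitAddCircle, D))ˣ, (g : Matrix ι ι C(UnitAddCircle, D)) =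
      zl D • e.map (cl D) + (1 - e.map (cl D)) :=
    ⟨⟨zl D • e.map (cl D) + (1 - e.map (cl D)), zi D • e.map (cl D) + (1 - e.map (cl D)),
      BNT_inv _ _ (BNT_zi D) u1 _ hE, BNT_inv _ _ (BNT_zl D) u2 _ hE⟩, rfl⟩
  have hm : e.map χ * e.map χ = e.map χ := by
    have h := congrArg (fun M => M.map χ) he
    simp only [Matrix.map_mul] at h
    exact h
  have h1 : be' (k0 (e.map χ) hm) = k1 (umap (cmpC UnitAddCircle χ hχ).toRingHom g) := by
    apply hbe'
    change (g : Matrix ι ι C(UnitAddCircle, D)).map (cmpC UnitAddCircle χ hχ) = _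
    rw [hg]
    ext i j t
    by_cases hij : i = j
    · subst hij
      change χ ((fourier 1 t : ℂ) • (1 : D) * e i i + ((1 : Matrix ι ι C(UnitAddCircle, D)) i i t - e i i)) =
        (fourier 1 t : ℂ) • (1 : ℂ) * χ (e i i) + ((1 : Matrix ι ι C(UnitAddCircle, ℂ)) i i t - χ (e i i))
      rw [Matrix.one_apply_eq, Matrix.one_apply_eq, map_add, map_sub, map_mul, map_smul, map_one]
      change _ + (χ (1 : D) - _) = _ + ((1 : ℂ) - _)
      rw [map_one]
    · change χ ((fourier 1 t : ℂ) • (1 : D) * e i j + ((1 : Matrix ι ι C(UnitAddCircle, D)) i j t - e i j)) =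
        (fourier 1 t : ℂ) • (1 : ℂ) * χ (e i j) + ((1 : Matrix ι ι C(UnitAddCircle, ℂ)) i j t - χ (e i j))
      rw [Matrix.one_apply_ne hij, Matrix.one_apply_ne hij, map_add, map_sub, map_mul, map_smul, map_one]
      change _ + (χ (0 : D) - _) = _ + ((0 : ℂ) - _)
      rw [map_zero]
  rw [hbe ι e he g hg]
  exact h1.symm

theorem BNT (hFUN : FUN_stmt) (hK0G : K0G_stmt) (hK0B : K0B_stmt) : BNT_stmt := by
  intro D _ _ χ hχ hc be be' hbe hbe' z
  obtain ⟨n, m, e, he, rfl⟩ := hK0G D z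
  have h1 : k0 (1 : Matrix (Fin 1) (Fin 1) D) (one_mul 1) = unitCls D := by
    rw [hK0B.2.2 D (Fin 1) (one_mul 1)]
    simp
  rw [← h1, map_sub, map_sub, map_sub, map_sub, map_nsmul, map_nsmul, map_nsmul, map_nsmul,
    BNT_gen D χ hχ hc be be' hbe hbe' (Fin n) e he, BNT_gen D χ hχ hc be be' hbe hbe' (Fin 1) 1 (one_mul 1)]

end Pool.Agent.PV
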