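import Pool.Agent.helper53.PV.SpecF

/-! # pvf:FSW: Stone-Weierstrass for the extension -/

set_option autoImplicit false

open scoped Topology
open MeasureTheory Filter

namespace Pool.Agent.PV

open Pool.Agent.CZ

/-- the functions which are constant on all but finitely many of the fibres -/
def FSW_alg {X₀ Y : Type} [TopologicalSpace X₀] [TopologicalSpace Y] (α₀ : X₀ ≃ₜ X₀) (x₀ : X₀)
    (f : X₀ → Y) : StarSubalgebra ℂ C(ESp α₀ x₀ f, ℂ) where
  carrier := {g | ∃ S : Finset ℤ, ∀ k, k ∉ S → ∀ y y' : Y, g (eIn α₀ x₀ f k y) = g (eIn α₀ x₀ f k y')}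
  mul_mem' := by
    rintro g h ⟨S, hS⟩ ⟨T, hT⟩
    classical
    refine ⟨S ∪ T, fun k hk y y' => ?_⟩
    rw [Finset.mem_union, not_or] at hk
    show g _ * h _ = g _ * h _
    rw [hS k hk.1 y y', hT k hk.2 y y']
  add_mem' := by
    rintro g h ⟨S, hS⟩ ⟨T, hT⟩
    classical
    refine ⟨S ∪ T, fun k hk y y' => ?_⟩
    rw [Finset.mem_union, not_or] at hk
    show g _ + h _ = g _ + h _
    rw [hS k hk.1 y y', hT k hk.2 y y']
  algebraMap_mem' := by
    intro r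
    exact ⟨∅, fun k _ y y' => rfl⟩
  star_mem' := by
    rintro g ⟨S, hS⟩
    refine ⟨S, fun k hk y y' => ?_⟩
    show star (g _) = star (g _)
    rw [hS k hk y y']

theorem FSW_fn {X : Type} [TopologicalSpace X] [CompactSpace X] [T2Space X] (x y : X) (h : x ≠ y) :
    ∃ g : C(X, ℂ), g x ≠ g y := by
  obtain ⟨u, hu0, hu1, _⟩ := exists_continuous_zero_one_of_isClosed (isClosed_singleton (x := x))
    (isClosed_singleton (x := y)) (Set.disjoint_singleton.2 h)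
  refine ⟨⟨fun z => ((u z : ℝ) : ℂ), Complex.continuous_ofReal.comp u.continuous⟩, ?_⟩
  show ((u x : ℝ) : ℂ) ≠ ((u y : ℝ) : ℂ)
  have h0 : u x = 0 := hu0 rfl
  have h1 : u y = 1 := hu1 rfl
  rw [h0, h1]
  norm_num

theorem FSW (hFCL : FCL_stmt) (hFID : FID_stmt) : FSW_stmt := by
  intro X₀ Y _ _ _ _ _ _ α₀ x₀ f hf g ε hε
  have hcl : IsClosed (ESet α₀ x₀ f) := hFCL X₀ Y α₀ x₀ f hf
  have hcomp : CompactSpace (ESp α₀ x₀ f) := isCompact_iff_compactSpace.1 hcl.isCompact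
  have hid := (hFID X₀ Y α₀ x₀ f).2.2.2.2.2.2.1
  have hsep : (FSW_alg α₀ x₀ f).SeparatesPoints := by
    intro p q hpq
    by_cases h1 : p.1.1 = q.1.1
    · have h2 : ∃ k, p.1.2 k ≠ q.1.2 k := by
        by_contra hc
        push Not at hc
        exact hpq (Subtype.ext (Prod.ext h1 (funext hc)))
      obtain ⟨k, hk⟩ := h2
      obtain ⟨ψ, hψ⟩ := FSW_fn _ _ hk
      refine ⟨_, ⟨eLif α₀ x₀ f k ψ, ⟨{k}, fun i hi y y' => ?_⟩, rfl⟩, hψ⟩
      have hne : k ≠ i := fun h => hi (Finset.mem_singleton.2 h.symm)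
      show ψ (eEv α₀ x₀ f k (eIn α₀ x₀ f i y)) = ψ (eEv α₀ x₀ f k (eIn α₀ x₀ f i y'))
      rw [hid k i y hne, hid k i y' hne]
    · obtain ⟨ψ, hψ⟩ := FSW_fn _ _ h1
      exact ⟨_, ⟨ePul α₀ x₀ f ψ, ⟨∅, fun i _ y y' => rfl⟩, rfl⟩, hψ⟩
  have htop := ContinuousMap.starSubalgebra_topologicalClosure_eq_top_of_separatesPoints
    (FSW_alg α₀ x₀ f) hsep
  have hg : g ∈ closure ((FSW_alg α₀ x₀ f : StarSubalgebra ℂ C(ESp α₀ x₀ f, ℂ)) :
      Set C(ESp α₀ x₀ f, ℂ)) := by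
    have h1 : g ∈ (FSW_alg α₀ x₀ f).topologicalClosure := by
      rw [htop]
      exact StarSubalgebra.mem_top
    exact h1
  obtain ⟨g', hg', hd⟩ := Metric.mem_closure_iff.1 hg ε hε
  obtain ⟨S, hS⟩ := hg'
  refine ⟨S, g', hS, fun p => ?_⟩
  rw [← dist_eq_norm]
  exact (ContinuousMap.dist_apply_le_dist p).trans hd.le

end Pool.Agent.PV
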