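import Pool.Agent.helper77.PV.SpecB

/-! # pv:PAD: the index does not change if the degree is raised -/

set_option autoImplicit false

open scoped Matrix Topology
open Filter

namespace Pool.Agent.PV

open Pool.Agent.CZ

attribute [local instance] Matrix.linftyOpNormedRing Matrix.linftyOpNormedAlgebra

attribute [-instance] CStarMatrix.instHMulOfFintypeOfMulOfAddCommMonoid

/-- splitting off the last block -/
def PAD_f (d : ℕ) (ι : Type) : (Fin d × ι) ⊕ ι ≃ Fin (d + 1) × ι where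
  toFun := Sum.elim (fun p => (p.1.castSucc, p.2)) (fun j => (Fin.last d, j))
  invFun := fun q => if h : q.1.val < d then Sum.inl (⟨q.1.val, h⟩, q.2) else Sum.inr q.2
  left_inv := by
    rintro (⟨i, j⟩ | j)
    · simp
    · simp
  right_inv := by
    rintro ⟨i, j⟩
    by_cases h : i.val < d
    · simp only [h, dif_pos, Sum.elim_inl]
      rfl
    · simp only [h, dif_neg, not_false_eq_true, Sum.elim_inr]
      apply Prod.ext
      · apply Fin.ext
        show d = i.val
        have := i.isLt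
        omega
      · rfl

theorem PAD_f_inl (d : ℕ) (ι : Type) (p : Fin d × ι) : PAD_f d ι (Sum.inl p) = (p.1.castSucc, p.2) := rfl

theorem PAD_f_inr (d : ℕ) (ι : Type) (j : ι) : PAD_f d ι (Sum.inr j) = (Fin.last d, j) := rfl

/-- the block `x_d E_(0,d)` -/
def PAD_C {B : Type} [Ring B] {ι : Type} (d : ℕ) (x : ℕ → Matrix ι ι B) : Matrix (Fin d × ι) ι B :=
  Matrix.of fun p j => if p.1.val = 0 then x d p.2 j else 0

/-- the block `E_(d,d-1)` -/
def PAD_H (B : Type) [Ring B] (ι : Type) [DecidableEq ι] (d : ℕ) : Matrix ι (Fin d × ι) B :=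
  Matrix.of fun j q => if q.1.val + 1 = d ∧ j = q.2 then 1 else 0

theorem PAD_CH {B : Type} [Ring B] {ι : Type} [Fintype ι] [DecidableEq ι] (d : ℕ)
    (x : ℕ → Matrix ι ι B) (p q : Fin d × ι) :
    (PAD_C d x * PAD_H B ι d : Matrix (Fin d × ι) (Fin d × ι) B) p q = if p.1.val = 0 ∧ q.1.val + 1 = d then x d p.2 q.2 else 0 := by
  rw [Matrix.mul_apply]
  show ∑ j, (if p.1.val = 0 then x d p.2 j else 0) * (if q.1.val + 1 = d ∧ j = q.2 then (1 : B) else 0) = _
  by_cases h1 : p.1.val = 0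
  · by_cases h2 : q.1.val + 1 = d
    · simp [h1, h2]
    · simp [h1, h2]
  · simp [h1]

section path

variable {B : Type} [NormedRing B] [NormedAlgebra ℂ B] {ι : Type} [Fintype ι] [DecidableEq ι]

/-- the constant part of the path -/
noncomputable def PAD_a (d : ℕ) (x : ℕ → Matrix ι ι B) (s : ℂ) :
    Matrix ((Fin d × ι) ⊕ ι) ((Fin d × ι) ⊕ ι) B :=
  Matrix.fromBlocks (aL d x) (s • PAD_C d x) 0 1

/-- the part with `u` of the path -/
noncomputable def PAD_b (d : ℕ) (x : ℕ → Matrix ι ι B) (s : ℂ) :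
    Matrix ((Fin d × ι) ⊕ ι) ((Fin d × ι) ⊕ ι) B :=
  Matrix.fromBlocks (bL d x - (s * s) • (PAD_C d x * PAD_H B ι d)) 0 (-(s • PAD_H B ι d)) 0

theorem PAD_a0 (d : ℕ) (x : ℕ → Matrix ι ι B) : PAD_a d x 0 = Matrix.fromBlocks (aL d x) 0 0 1 := by
  unfold PAD_a
  rw [zero_smul]

theorem PAD_b0 (d : ℕ) (x : ℕ → Matrix ι ι B) : PAD_b d x 0 = Matrix.fromBlocks (bL d x) 0 0 0 := by
  unfold PAD_b
  rw [zero_smul, mul_zero, zero_smul, sub_zero, neg_zero]

theorem PAD_a1 (d : ℕ) (hd : 1 ≤ d) (x : ℕ → Matrix ι ι B) :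
    PAD_a d x 1 = (aL (d + 1) x).submatrix (PAD_f d ι) (PAD_f d ι) := by
  unfold PAD_a
  rw [one_smul]
  ext p q
  rcases p with p | p <;> rcases q with q | q
  · rw [Matrix.fromBlocks_apply₁₁, Matrix.submatrix_apply, PAD_f_inl, PAD_f_inl]
    show (if p.1.val = 0 then x q.1.val p.2 q.2 else if p = q then (1 : B) else 0) =
      if p.1.val = 0 then x q.1.val p.2 q.2 else
        if (p.1.castSucc, p.2) = (q.1.castSucc, q.2) then 1 else 0
    have e : ((p.1.castSucc, p.2) = (q.1.castSucc, q.2)) ↔ p = q := by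
      rw [Prod.mk.injEq, Prod.ext_iff, Fin.castSucc_inj]
    simp only [e]
  · rw [Matrix.fromBlocks_apply₁₂, Matrix.submatrix_apply, PAD_f_inl, PAD_f_inr]
    show (if p.1.val = 0 then x d p.2 q else 0) = if p.1.val = 0 then x d p.2 q else
        if (p.1.castSucc, p.2) = (Fin.last d, q) then (1 : B) else 0
    have e : ¬ ((p.1.castSucc, p.2) = (Fin.last d, q)) := by
      intro h
      have h1 := congrArg (fun z => z.1.val) h
      have h2 : p.1.val = d := h1
      have := p.1.isLt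
      omega
    rw [if_neg e]
  · rw [Matrix.fromBlocks_apply₂₁, Matrix.submatrix_apply, PAD_f_inl, PAD_f_inr]
    show (0 : B) = if d = 0 then x q.1.val p q.2 else
        if (Fin.last d, p) = (q.1.castSucc, q.2) then (1 : B) else 0
    have e : ¬ ((Fin.last d, p) = (q.1.castSucc, q.2)) := by
      intro h
      have h1 := congrArg (fun z => z.1.val) h
      have h2 : d = q.1.val := h1
      have := q.1.isLt
      omega
    rw [if_neg e, if_neg (by omega)]
  · rw [Matrix.fromBlocks_apply₂₂, Matrix.submatrix_apply, PAD_f_inr, PAD_f_inr]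
    show (1 : Matrix ι ι B) p q = if d = 0 then x d p q else
        if (Fin.last d, p) = (Fin.last d, q) then (1 : B) else 0
    rw [if_neg (by omega), Matrix.one_apply]
    have e : ((Fin.last d, p) = (Fin.last d, q)) ↔ p = q := by
      rw [Prod.mk.injEq]
      simp
    simp only [e]

theorem PAD_b1 (d : ℕ) (hd : 1 ≤ d) (x : ℕ → Matrix ι ι B) (hx : x (d + 1) = 0) :
    PAD_b d x 1 = (bL (d + 1) x).submatrix (PAD_f d ι) (PAD_f d ι) := by
  unfold PAD_b
  rw [one_smul, mul_one, one_smul]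
  ext p q
  rcases p with p | p <;> rcases q with q | q
  · rw [Matrix.fromBlocks_apply₁₁, Matrix.submatrix_apply, PAD_f_inl, PAD_f_inl, Matrix.sub_apply,
      PAD_CH]
    show (if p.1.val = 0 then (if q.1.val + 1 = d then x d p.2 q.2 else 0) else
        if q.1.val + 1 = p.1.val ∧ p.2 = q.2 then (-1 : B) else 0) -
        (if p.1.val = 0 ∧ q.1.val + 1 = d then x d p.2 q.2 else 0) =
      if p.1.val = 0 then (if q.1.val + 1 = d + 1 then x (d + 1) p.2 q.2 else 0) else
        if q.1.val + 1 = p.1.val ∧ p.2 = q.2 then -1 else 0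
    have hq := q.1.isLt
    by_cases h1 : p.1.val = 0
    · rw [if_pos h1, if_pos h1, if_neg (by omega : ¬ (q.1.val + 1 = d + 1))]
      by_cases h2 : q.1.val + 1 = d
      · rw [if_pos h2, if_pos ⟨h1, h2⟩, sub_self]
      · rw [if_neg h2, if_neg (fun h => h2 h.2), sub_self]
    · rw [if_neg h1, if_neg h1, if_neg (fun h : p.1.val = 0 ∧ q.1.val + 1 = d => h1 h.1), sub_zero]
  · rw [Matrix.fromBlocks_apply₁₂, Matrix.submatrix_apply, PAD_f_inl, PAD_f_inr]
    show (0 : B) = if p.1.val = 0 then (if d + 1 = d + 1 then x (d + 1) p.2 q else 0) else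
        if d + 1 = p.1.val ∧ p.2 = q then -1 else 0
    have hp := p.1.isLt
    rw [if_pos rfl, hx, if_neg (fun h => by have := h.1; omega : ¬ (d + 1 = p.1.val ∧ p.2 = q))]
    simp
  · rw [Matrix.fromBlocks_apply₂₁, Matrix.submatrix_apply, PAD_f_inl, PAD_f_inr, Matrix.neg_apply]
    show -(if q.1.val + 1 = d ∧ p = q.2 then (1 : B) else 0) =
      if d = 0 then (if q.1.val + 1 = d + 1 then x (d + 1) p q.2 else 0) else
        if q.1.val + 1 = d ∧ p = q.2 then -1 else 0
    rw [if_neg (by omega : ¬ d = 0)]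
    split_ifs
    · rfl
    · exact neg_zero
  · rw [Matrix.fromBlocks_apply₂₂, Matrix.submatrix_apply, PAD_f_inr, PAD_f_inr]
    show (0 : B) = if d = 0 then (if d + 1 = d + 1 then x (d + 1) p q else 0) else
        if d + 1 = d ∧ p = q then -1 else 0
    rw [if_neg (by omega : ¬ d = 0), if_neg (fun h => by have := h.1; omega : ¬ (d + 1 = d ∧ p = q))]

end path

section units

variable {A : Type} [Ring A] {κ ι : Type} [Fintype κ] [Fintype ι] [DecidableEq κ] [DecidableEq ι]

/-- `[[1, X], [0, 1]]` -/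
def PAD_up (X : Matrix κ ι A) : (Matrix (κ ⊕ ι) (κ ⊕ ι) A)ˣ where
  val := Matrix.fromBlocks 1 X 0 1
  inv := Matrix.fromBlocks 1 (-X) 0 1
  val_inv := by
    rw [Matrix.fromBlocks_multiply]
    simp
  inv_val := by
    rw [Matrix.fromBlocks_multiply]
    simp

/-- `[[1, 0], [Y, 1]]` -/
def PAD_lo (Y : Matrix ι κ A) : (Matrix (κ ⊕ ι) (κ ⊕ ι) A)ˣ where
  val := Matrix.fromBlocks 1 0 Y 1
  inv := Matrix.fromBlocks 1 0 (-Y) 1
  val_inv := by
    rw [Matrix.fromBlocks_multiply]
    simp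
  inv_val := by
    rw [Matrix.fromBlocks_multiply]
    simp

/-- `diag(L, 1)` -/
def PAD_di (L : (Matrix κ κ A)ˣ) : (Matrix (κ ⊕ ι) (κ ⊕ ι) A)ˣ where
  val := Matrix.fromBlocks (L : Matrix κ κ A) 0 0 1
  inv := Matrix.fromBlocks ((L⁻¹ : (Matrix κ κ A)ˣ) : Matrix κ κ A) 0 0 1
  val_inv := by
    rw [Matrix.fromBlocks_multiply]
    simp
  inv_val := by
    rw [Matrix.fromBlocks_multiply]
    simp

theorem PAD_prod (X : Matrix κ ι A) (Y : Matrix ι κ A) (L : (Matrix κ κ A)ˣ) :
    ((PAD_up X * PAD_di L * PAD_lo Y : (Matrix (κ ⊕ ι) (κ ⊕ ι) A)ˣ) : Matrix (κ ⊕ ι) (κ ⊕ ι) A) =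
      Matrix.fromBlocks ((L : Matrix κ κ A) + X * Y) X Y 1 := by
  show Matrix.fromBlocks 1 X 0 1 * Matrix.fromBlocks (L : Matrix κ κ A) 0 0 1 *
    Matrix.fromBlocks 1 0 Y 1 = _
  rw [Matrix.fromBlocks_multiply, Matrix.fromBlocks_multiply]
  simp

theorem PAD_uM (u : Aˣ) : ((uM (κ ⊕ ι) u : (Matrix (κ ⊕ ι) (κ ⊕ ι) A)ˣ) : Matrix (κ ⊕ ι) (κ ⊕ ι) A) =
    Matrix.fromBlocks (uM κ u : Matrix κ κ A) 0 0 (uM ι u : Matrix ι ι A) := by
  show Matrix.scalar (κ ⊕ ι) (u : A) = Matrix.fromBlocks (Matrix.scalar κ (u : A)) 0 0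
    (Matrix.scalar ι (u : A))
  rw [Matrix.scalar_apply, Matrix.scalar_apply, Matrix.scalar_apply, Matrix.fromBlocks_diagonal]
  apply congrArg
  funext z
  rcases z with z | z <;> rfl

theorem PAD_uM_sub (u : Aˣ) (f : κ ≃ ι) : (uM ι u : Matrix ι ι A) =
    (uM κ u : Matrix κ κ A).submatrix f.symm f.symm := by
  show Matrix.scalar ι (u : A) = (Matrix.scalar κ (u : A)).submatrix f.symm f.symm
  rw [Matrix.scalar_apply, Matrix.scalar_apply]
  rw [Matrix.submatrix_diagonal_equiv]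
  rfl

end units

theorem PAD_k0sub (hK0E : K0E_stmt) (A : Type) [Ring A] (κ κ' : Type) [Fintype κ] [Fintype κ']
    (f : κ ≃ κ') (e : Matrix κ κ A) (he : e * e = e) (e' : Matrix κ' κ' A) (he' : e' * e' = e')
    (h : e' = e.submatrix f.symm f.symm) : k0 e' he' = k0 e he := by
  refine hK0E A κ' κ e' e he' he (e.submatrix f.symm id) (e.submatrix id f.symm) ?_ ?_
  · rw [h]
    rw [← Matrix.submatrix_mul _ _ _ _ _ Function.bijective_id, he]
  · rw [← Matrix.submatrix_mul _ _ _ _ _ f.symm.bijective, he]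
    rfl

theorem PAD (hQDM : QDM_stmt) (hQCL : QCL_stmt) (hQOP : QOP_stmt) (hK0B : K0B_stmt) (hK0E : K0E_stmt)
    (hLFA : LFA_stmt) : PAD_stmt := by
  intro B A _ _ _ _ _ _ al io u c hZ ι _ _ d x hd hx L L' hL hL' h h'
  -- the path
  set X : Matrix (Fin d × ι) ι A := (PAD_C d x).map io with hX
  set W : Matrix ι (Fin d × ι) A := (PAD_H B ι d).map io * (uM (Fin d × ι) u : Matrix (Fin d × ι) (Fin d × ι) A) with hW
  set M : ℂ → (Matrix ((Fin d × ι) ⊕ ι) ((Fin d × ι) ⊕ ι) A)ˣ := fun s =>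
    PAD_up (s • X) * PAD_di L * PAD_lo (-(s • W)) with hM
  have hlin : ∀ s : ℂ, IsLin io u (PAD_a d x s) (PAD_b d x s) (M s) := by
    intro s
    show (M s : Matrix ((Fin d × ι) ⊕ ι) ((Fin d × ι) ⊕ ι) A) = (PAD_a d x s).map io + (PAD_b d x s).map io * _
    rw [hM]
    simp only
    rw [PAD_prod, PAD_uM]
    unfold PAD_a PAD_b
    rw [Matrix.fromBlocks_map, Matrix.fromBlocks_map, Matrix.fromBlocks_multiply, Matrix.fromBlocks_add]
    have hL0 : (L : Matrix (Fin d × ι) (Fin d × ι) A) = (aL d x).map io + (bL d x).map io * (uM (Fin d × ι) u : Matrix (Fin d × ι) (Fin d × ι) A) := hL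
    have e1 : (0 : Matrix ι (Fin d × ι) B).map io = 0 := Matrix.map_zero _ (map_zero io)
    have e2 : (0 : Matrix (Fin d × ι) ι B).map io = 0 := Matrix.map_zero _ (map_zero io)
    have e3 : (0 : Matrix ι ι B).map io = 0 := Matrix.map_zero _ (map_zero io)
    have e4 : (1 : Matrix ι ι B).map io = 1 := map_one io.mapMatrix
    have e5 : (s • PAD_C d x).map io = s • X := by
      ext p q
      exact map_smul io s (PAD_C d x p q)
    have e6 : (-(s • PAD_H B ι d : Matrix ι (Fin d × ι) B)).map io = -(s • (PAD_H B ι d).map io) := by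
      ext p q
      show io (-(s • PAD_H B ι d p q)) = -(s • io (PAD_H B ι d p q))
      rw [map_neg, map_smul]
    have e7 : (bL d x - (s * s) • (PAD_C d x * PAD_H B ι d)).map io =
        (bL d x).map io - (s * s) • (X * (PAD_H B ι d).map io) := by
      rw [hX, ← Matrix.map_mul]
      ext p q
      show io (bL d x p q - (s * s) • (PAD_C d x * PAD_H B ι d) p q) =
        io (bL d x p q) - (s * s) • io ((PAD_C d x * PAD_H B ι d) p q)
      rw [map_sub, map_smul]
    rw [e1, e2, e3, e4, e5, e6, e7, hL0, hW]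
    have g1 : s • X * -(s • ((PAD_H B ι d).map io * (uM (Fin d × ι) u : Matrix (Fin d × ι) (Fin d × ι) A))) =
        -((s * s) • (X * (PAD_H B ι d).map io) * (uM (Fin d × ι) u : Matrix (Fin d × ι) (Fin d × ι) A)) := by
      rw [Matrix.mul_neg, Matrix.smul_mul, Matrix.mul_smul, smul_smul, Matrix.smul_mul, Matrix.mul_assoc]
    rw [g1]
    simp only [Matrix.mul_zero, Matrix.zero_mul, add_zero, zero_add, Matrix.sub_mul, Matrix.neg_mul,
      Matrix.smul_mul]
    rw [← sub_eq_add_neg, add_sub_assoc]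
  have hid : ∀ s : ℂ, qL al c (PAD_b d x s) (M s) * qL al c (PAD_b d x s) (M s) = qL al c (PAD_b d x s) (M s) :=
    fun s => (hQDM B A al io u c hZ _ _ _ _ (hlin s)).qq
  have hcont : Continuous fun t : unitInterval => (((t : ℝ) : ℂ)) :=
    Complex.continuous_ofReal.comp continuous_subtype_val
  have ha : Continuous fun t : unitInterval => PAD_a d x ((t : ℝ) : ℂ) := by
    unfold PAD_a
    exact Continuous.matrix_fromBlocks continuous_const (hcont.smul continuous_const)
      continuous_const continuous_const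
  have hb : Continuous fun t : unitInterval => PAD_b d x ((t : ℝ) : ℂ) := by
    unfold PAD_b
    exact Continuous.matrix_fromBlocks (continuous_const.sub ((hcont.mul hcont).smul continuous_const))
      continuous_const (hcont.smul continuous_const).neg continuous_const
  have hpath := hQCL B A al io u c hZ ((Fin d × ι) ⊕ ι) ⟨_, ha⟩ ⟨_, hb⟩ (fun t => M ((t : ℝ) : ℂ))
    (fun t => hlin _) (hid _) (hid _)
  have hpath' : k0 (qL al c (PAD_b d x 0) (M 0)) (hid 0) = k0 (qL al c (PAD_b d x 1) (M 1)) (hid 1) := by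
    have z0 : (((0 : unitInterval) : ℝ) : ℂ) = 0 := by simp
    have z1 : (((1 : unitInterval) : ℝ) : ℂ) = 1 := by simp
    have hpath2 := hpath
    simp only [ContinuousMap.coe_mk, z0, z1] at hpath2
    exact hpath2
  obtain ⟨o1, o2, _, o4, _⟩ := hQOP B A al io u c hZ (Fin d × ι) ι
  -- start
  have hs : qL al c (PAD_b d x 0) (M 0) = Matrix.fromBlocks (qL al c (bL d x) L) 0 0 0 := by
    have h1 := o1 (bL d x) 0 L 1 (M 0) (by
      rw [hM]
      simp only
      rw [PAD_prod]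
      simp)
    rw [PAD_b0, h1]
    have h2 := (hQOP B A al io u c hZ ι ι).2.2.2.1 1
    rw [h2]
  have hstart : k0 (qL al c (PAD_b d x 0) (M 0)) (hid 0) = k0 (qL al c (bL d x) L) h := by
    have h1 : Matrix.fromBlocks (qL al c (bL d x) L) 0 0 (0 : Matrix ι ι B) *
        Matrix.fromBlocks (qL al c (bL d x) L) 0 0 0 = Matrix.fromBlocks (qL al c (bL d x) L) 0 0 0 := by
      rw [← hs]
      exact hid 0
    have h2 : k0 (qL al c (PAD_b d x 0) (M 0)) (hid 0) =
        k0 (Matrix.fromBlocks (qL al c (bL d x) L) 0 0 (0 : Matrix ι ι B)) h1 := by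
      simp only [hs]
    rw [h2, hK0B.1 B (Fin d × ι) ι (qL al c (bL d x) L) 0 h (zero_mul _) h1,
      hK0B.2.1 B ι (zero_mul _), add_zero]
  -- end
  have hend : k0 (qL al c (bL (d + 1) x) L') h' = k0 (qL al c (PAD_b d x 1) (M 1)) (hid 1) := by
    apply PAD_k0sub hK0E B _ _ (PAD_f d ι)
    have e1 : L' = rix (PAD_f d ι) (M 1) := by
      apply Units.ext
      have h1 : (L' : Matrix (Fin (d + 1) × ι) (Fin (d + 1) × ι) A) = (aL (d + 1) x).map io +
          (bL (d + 1) x).map io * (uM (Fin (d + 1) × ι) u : Matrix (Fin (d + 1) × ι) (Fin (d + 1) × ι) A) := hL'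
      have h2 : (M 1 : Matrix ((Fin d × ι) ⊕ ι) ((Fin d × ι) ⊕ ι) A) = (PAD_a d x 1).map io +
          (PAD_b d x 1).map io * (uM ((Fin d × ι) ⊕ ι) u : Matrix ((Fin d × ι) ⊕ ι) ((Fin d × ι) ⊕ ι) A) := hlin 1
      show (L' : Matrix (Fin (d + 1) × ι) (Fin (d + 1) × ι) A) =
        (M 1 : Matrix ((Fin d × ι) ⊕ ι) ((Fin d × ι) ⊕ ι) A).submatrix (PAD_f d ι).symm (PAD_f d ι).symm
      rw [h1, h2, PAD_a1 d hd x, PAD_b1 d hd x hx, PAD_uM_sub u (PAD_f d ι)]
      rw [Matrix.submatrix_add, Pi.add_apply, Pi.add_apply]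
      rw [← Matrix.submatrix_mul_equiv _ _ (PAD_f d ι).symm (PAD_f d ι).symm (PAD_f d ι).symm]
      have e2 : (((aL (d + 1) x).submatrix (PAD_f d ι) (PAD_f d ι)).map io).submatrix
          (PAD_f d ι).symm (PAD_f d ι).symm = (aL (d + 1) x).map io := by
        ext p q
        simp
      have e3 : (((bL (d + 1) x).submatrix (PAD_f d ι) (PAD_f d ι)).map io).submatrix
          (PAD_f d ι).symm (PAD_f d ι).symm = (bL (d + 1) x).map io := by
        ext p q
        simp
      rw [e2, e3]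
    have e4 : bL (d + 1) x = (PAD_b d x 1).submatrix (PAD_f d ι).symm (PAD_f d ι).symm := by
      rw [PAD_b1 d hd x hx]
      ext p q
      simp
    rw [e1, e4]
    exact (hQOP B A al io u c hZ ((Fin d × ι) ⊕ ι) (Fin (d + 1) × ι)).2.1 (PAD_f d ι) (PAD_b d x 1) (M 1)
  rw [hend, ← hpath', hstart]

end Pool.Agent.PV
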